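import Mathlib

set_option autoImplicit false

open Set Metric
open scoped Pointwise

namespace Pool.Agent.Results.MP_c39918_co.Full

/-- The real Ehrhart function: the number of integer points of `s K`. -/
noncomputable def ehr {d : ℕ} (K : Set (Fin d → ℝ)) (s : ℝ) : ℕ :=
  {z : Fin d → ℤ | (fun i => (z i : ℝ)) ∈ s • K}.ncard

/-- The translate `K + w` by an integer vector. -/
def tr {d : ℕ} (K : Set (Fin d → ℝ)) (w : Fin d → ℤ) : Set (Fin d → ℝ) :=
  (fun x => x + fun i => (w i : ℝ)) '' K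

lemma approx {a : ℝ} (ha : Irrational a) (x : ℝ) {ε : ℝ} (hε : 0 < ε) :
    ∃ z w : ℤ, |z * a - w - x| < ε := by
  have h : Dense (AddSubgroup.closure {a, 1} : Set ℝ) :=
    dense_addSubgroupClosure_pair_iff.2 (by simpa using ha)
  obtain ⟨y, hy, h2⟩ := h.exists_dist_lt x hε
  obtain ⟨m, n, rfl⟩ := AddSubgroup.mem_closure_pair.1 hy
  refine ⟨m, -n, ?_⟩
  rw [dist_comm, Real.dist_eq] at h2
  simpa using h2

lemma sub {d : ℕ} {K H : Set (Fin d → ℝ)} (hK : IsCompact K) (hH : IsCompact H)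
    (h : ∀ s : ℝ, 0 < s → ∀ w, ehr (tr K w) s = ehr (tr H w) s) : interior K ⊆ H := by
  intro p hp
  by_contra hpH
  obtain ⟨ε, hε, hb⟩ := Metric.isOpen_iff.1 (isOpen_interior.inter hH.isClosed.isOpen_compl) p
    ⟨hp, hpH⟩
  obtain ⟨R, hR⟩ := (hK.union hH).isBounded.subset_ball 0
  obtain ⟨a, ha, ha1, -⟩ := exists_irrational_btwn (show 2 * |R| < 2 * |R| + 1 by linarith)
  have a0 : 0 < a := lt_of_le_of_lt (by positivity) ha1
  choose z w hz using fun i => approx ha (p i) hε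
  have mem : ∀ (L : Set (Fin d → ℝ)) (y : Fin d → ℤ),
      (fun i => (y i : ℝ)) ∈ a⁻¹ • tr L w ↔ (fun i => y i * a - w i) ∈ L := fun L y => by
    rw [mem_smul_set_iff_inv_smul_mem₀ (inv_pos.2 a0).ne', inv_inv]
    constructor
    · rintro ⟨x, hx, e⟩
      convert hx using 1
      ext i; have := congrFun e i; simp at this; linarith
    · exact fun hx => ⟨_, hx, by ext i; simp [mul_comm]⟩
  have q := hb (show (fun i => z i * a - w i) ∈ ball p ε from
    (dist_pi_lt_iff hε).2 fun i => hz i)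
  have qK : (fun i => z i * a - w i) ∈ K := interior_subset q.1
  have uniq : ∀ y : Fin d → ℤ, (fun i => y i * a - w i) ∈ K ∪ H → y = z := fun y hy => by
    ext i
    have h1 := (norm_le_pi_norm _ i).trans_lt (mem_ball_zero_iff.1 (hR hy))
    have h2 := (norm_le_pi_norm _ i).trans_lt (mem_ball_zero_iff.1 (hR (Or.inl qK)))
    rw [Real.norm_eq_abs, abs_lt] at h1 h2
    have h3 : ((y i - z i : ℤ) : ℝ) < 1 := by
      push_cast; nlinarith [le_abs_self R]
    have h4 : -1 < ((y i - z i : ℤ) : ℝ) := by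
      push_cast; nlinarith [le_abs_self R]
    have h5 : y i - z i < 1 := by exact_mod_cast h3
    have h6 : -1 < y i - z i := by exact_mod_cast h4
    omega
  have e1 : {y : Fin d → ℤ | (fun i => (y i : ℝ)) ∈ a⁻¹ • tr K w} = {z} := by
    ext y
    exact ⟨fun hy => uniq y (Or.inl ((mem K y).1 hy)), fun hy => hy ▸ (mem K z).2 qK⟩
  have e2 : {y : Fin d → ℤ | (fun i => (y i : ℝ)) ∈ a⁻¹ • tr H w} = ∅ :=
    eq_empty_of_forall_notMem fun y hy => by
      have h1 := (mem H y).1 hy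
      rw [uniq y (Or.inr h1)] at h1
      exact q.2 h1
  have := h a⁻¹ (inv_pos.2 a0) w
  simp [ehr, e1, e2] at this

theorem result (d : ℕ) (K H : Set (Fin d → ℝ))
    (hK : IsCompact K ∧ Convex ℝ K ∧ (interior K).Nonempty)
    (hH : IsCompact H ∧ Convex ℝ H ∧ (interior H).Nonempty)
    (h : ∀ s : ℝ, 0 < s → ∀ w : Fin d → ℤ, ehr (tr K w) s = ehr (tr H w) s) : K = H := by
  have key : ∀ {A B : Set (Fin d → ℝ)}, IsCompact A ∧ Convex ℝ A ∧ (interior A).Nonempty →
      IsCompact B → interior A ⊆ B → A ⊆ B := fun hA hB hs =>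
    subset_closure.trans (by
      rw [← hA.2.1.closure_interior_eq_closure_of_nonempty_interior hA.2.2]
      exact closure_minimal hs hB.isClosed)
  exact (key hK hH.1 (sub hK.1 hH.1 h)).antisymm
    (key hH hK.1 (sub hH.1 hK.1 fun s hs w => (h s hs w).symm))

end Pool.Agent.Results.MP_c39918_co.Full
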